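import Pool.Agent.MWGR.StmtsD

/-! Row EXG of squad MWGR: exponents are taken modulo `n`. -/

namespace Pool.Agent.MWGR.H53

open Pool.Agent.Helper14_MV Pool.Agent.Helper2_MV Pool.Agent.MVO Pool.Agent.MWL Pool.Agent.MWS
  Pool.Agent.MWH

lemma flatMap_rep' (g : ℕ → List ℕ) (m c x : ℕ) (h : g c = [x]) :
    (List.replicate m c).flatMap g = List.replicate m x := by
  induction m with
  | zero => rfl
  | succ m ih => rw [List.replicate_succ, List.flatMap_cons, ih, h, List.replicate_succ]; rfl

section
variable {θ : FIC}

lemma mods (F : ℕ → List ℕ) (n e0 : ℕ) (h : ∀ e, e0 ≤ e → RR θ (F e) (F (e + n))) :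
    ∀ e e', e0 ≤ e → e0 ≤ e' → e ≡ e' [MOD n] → RR θ (F e) (F e') := by
  have key : ∀ e, e0 ≤ e → ∀ m, RR θ (F e) (F (e + n * m)) := by
    intro e he m
    induction m with
    | zero => exact RR.refl _
    | succ m ih =>
      have h2 := h (e + n * m) (by omega)
      have e1 : e + n * m + n = e + n * (m + 1) := by ring
      rw [e1] at h2
      exact θ.trans ih h2
  intro e e' he he' hm
  rcases le_total e e' with hle | hle
  · obtain ⟨m, hm'⟩ := (Nat.modEq_iff_dvd' hle).1 hm
    have e1 : e' = e + n * m := by omega
    rw [e1]
    exact key e he m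
  · obtain ⟨m, hm'⟩ := (Nat.modEq_iff_dvd' hle).1 hm.symm
    have e1 : e = e' + n * m := by omega
    rw [e1]
    exact (key e' he' m).symm

lemma gapE {n : ℕ} (hga : MWZ.Ga n (RR θ)) (p q : List ℕ) (x : ℕ) (hx : x ∈ p) :
    RR θ (p ++ x :: q) (p ++ (List.replicate (n + 1) x ++ q)) := by
  obtain ⟨p1, p2, rfl⟩ := List.append_of_mem hx
  have h0 : RR θ [0, 1, 0] (0 :: 1 :: List.replicate (n + 1) 0) := hga
  have h1 := h0.sub (fun i => if i = 0 then [x] else p2)
  have e1 : ([0, 1, 0] : List ℕ).flatMap (fun i => if i = 0 then [x] else p2) =
      x :: (p2 ++ [x]) := by simp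
  have e2 : (0 :: 1 :: List.replicate (n + 1) 0).flatMap
      (fun i => if i = 0 then [x] else p2) = x :: (p2 ++ List.replicate (n + 1) x) := by
    rw [List.flatMap_cons, List.flatMap_cons, flatMap_rep' _ _ _ x (by simp)]
    simp
  rw [e1, e2] at h1
  have h2 := ((RR.refl p1).append h1).append (RR.refl (β := θ) q)
  simpa only [List.append_assoc, List.cons_append, List.nil_append] using h2

end

theorem exg : ExgStmt := by
  intro n θ hB p q y e e' hee
  refine ⟨?_, ?_, ?_, ?_⟩
  · intro hy he he'
    refine mods (fun e => p ++ (List.replicate e y ++ q)) n 1 ?_ e e' he he' hee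
    intro e he
    obtain ⟨e1, rfl⟩ : ∃ e1, e = e1 + 1 := ⟨e - 1, by omega⟩
    have h := gapE (θ := θ) hB.ga p (List.replicate e1 y ++ q) y hy
    have a1 : p ++ y :: (List.replicate e1 y ++ q) = p ++ (List.replicate (e1 + 1) y ++ q) := by
      rw [List.replicate_succ]
      rfl
    have a2 : p ++ (List.replicate (n + 1) y ++ (List.replicate e1 y ++ q)) =
        p ++ (List.replicate (e1 + 1 + n) y ++ q) := by
      have : e1 + 1 + n = (n + 1) + e1 := by omega
      rw [this, List.replicate_add (n + 1) e1]
      simp only [List.append_assoc]
    rw [a1, a2] at h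
    exact h
  · intro he he'
    refine mods (fun e => p ++ (List.replicate e y ++ q)) n 2 ?_ e e' he he' hee
    intro e he
    obtain ⟨e1, rfl⟩ : ∃ e1, e = e1 + 2 := ⟨e - 2, by omega⟩
    have h0 : RR θ (List.replicate 2 0) (List.replicate (n + 2) 0) := hB.per
    have h1 := h0.sub (fun _ => [y])
    rw [flatMap_rep' _ _ _ y rfl, flatMap_rep' _ _ _ y rfl] at h1
    have h := ((RR.refl (β := θ) p).append h1).append (RR.refl (β := θ) (List.replicate e1 y ++ q))
    have a1 : p ++ List.replicate 2 y ++ (List.replicate e1 y ++ q) =
        p ++ (List.replicate (e1 + 2) y ++ q) := by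
      have : e1 + 2 = 2 + e1 := by omega
      rw [this, List.replicate_add 2 e1]
      simp only [List.append_assoc]
    have a2 : p ++ List.replicate (n + 2) y ++ (List.replicate e1 y ++ q) =
        p ++ (List.replicate (e1 + 2 + n) y ++ q) := by
      have : e1 + 2 + n = (n + 2) + e1 := by omega
      rw [this, List.replicate_add (n + 2) e1]
      simp only [List.append_assoc]
    rw [a1, a2] at h
    exact h
  · intro p1 p2 q1 q2 hp hq hc
    refine mods (fun e => p ++ (List.replicate e y ++ q)) n 0 ?_ e e' (Nat.zero_le _)
      (Nat.zero_le _) hee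
    intro e _
    have h := hB.it p1 p2 (List.replicate e y ++ q1) q2 y (by
      intro c hc2
      have e1 : p1 ++ y :: (p2 ++ ((List.replicate e y ++ q1) ++ y :: q2)) =
          p ++ (List.replicate e y ++ q) := by
        rw [hp, hq]
        simp only [List.append_assoc, List.cons_append]
      rw [e1]
      have e2 : (p ++ (List.replicate e y ++ q)).count c =
          (p ++ q).count c + (List.replicate e y).count c := by
        simp only [List.count_append]
        ring
      have hy : 2 ≤ (p ++ q).count y := by
        rw [hp, hq]
        simp only [List.count_append, List.count_cons_self]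
        omega
      rw [e2]
      rcases List.mem_append.1 hc2 with h3 | h3
      · have := hc c (Or.inl h3)
        omega
      · rcases List.mem_append.1 h3 with h4 | h4
        · have := List.eq_of_mem_replicate h4
          subst this
          omega
        · have := hc c (Or.inr h4)
          omega)
    have a1 : p1 ++ y :: (p2 ++ ((List.replicate e y ++ q1) ++ y :: q2)) =
        p ++ (List.replicate e y ++ q) := by
      rw [hp, hq]
      simp only [List.append_assoc, List.cons_append]
    have a2 : p1 ++ y :: (p2 ++ (List.replicate n y ++ ((List.replicate e y ++ q1) ++ y :: q2))) =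
        p ++ (List.replicate (e + n) y ++ q) := by
      have : e + n = n + e := by omega
      rw [hp, hq, this, List.replicate_add n e]
      simp only [List.append_assoc, List.cons_append]
    rw [a1, a2] at h
    exact h
  · intro q1 q2 hq he he' hc
    refine mods (fun e => p ++ (List.replicate e y ++ q)) n 1 ?_ e e' he he' hee
    intro e he
    obtain ⟨e1, rfl⟩ : ∃ e1, e = e1 + 1 := ⟨e - 1, by omega⟩
    have a1 : p ++ y :: ([] ++ ((List.replicate e1 y ++ q1) ++ y :: q2)) =
        p ++ (List.replicate (e1 + 1) y ++ q) := by
      rw [hq, List.replicate_succ]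
      simp only [List.append_assoc, List.cons_append, List.nil_append]
    have h := hB.it p [] (List.replicate e1 y ++ q1) q2 y (by
      intro c hc2
      rw [a1]
      have e2 : (p ++ (List.replicate (e1 + 1) y ++ q)).count c =
          (p ++ q).count c + (List.replicate (e1 + 1) y).count c := by
        simp only [List.count_append]
        ring
      have hy : 1 ≤ (p ++ q).count y := by
        rw [hq]
        simp only [List.count_append, List.count_cons_self]
        omega
      rw [e2]
      by_cases hcy : c = y
      · subst hcy
        rw [List.count_replicate_self]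
        omega
      · rw [List.nil_append] at hc2
        rcases List.mem_append.1 hc2 with h4 | h4
        · exact absurd (List.eq_of_mem_replicate h4) hcy
        · have := hc c h4 hcy
          omega)
    have a2 : p ++ y :: ([] ++ (List.replicate n y ++ ((List.replicate e1 y ++ q1) ++ y :: q2))) =
        p ++ (List.replicate (e1 + 1 + n) y ++ q) := by
      have : e1 + 1 + n = (n + e1) + 1 := by omega
      rw [hq, this, List.replicate_succ, List.replicate_add n e1]
      simp only [List.append_assoc, List.cons_append, List.nil_append]
    rw [a1, a2] at h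
    exact h

end Pool.Agent.MWGR.H53
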