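import Pool.Agent.MWGR.StmtsC

/-! Row REL of squad MWGR: `REo` from the literal identities. -/

namespace Pool.Agent.MWGR.H53

open Pool.Agent.Helper14_MV Pool.Agent.Helper2_MV Pool.Agent.MVO Pool.Agent.MWL Pool.Agent.MWS
  Pool.Agent.MWH

lemma sub2 {x a : ℕ} {l : List ℕ} (h : [x, a].Sublist l) :
    ∃ s1 s2 s3, l = s1 ++ x :: (s2 ++ a :: s3) := by
  rw [List.cons_sublist_iff] at h
  obtain ⟨r1, r2, hl, hx, ha⟩ := h
  obtain ⟨s1, t1, h1⟩ := List.append_of_mem hx
  obtain ⟨t2, s3, h2⟩ := List.append_of_mem (List.singleton_sublist.1 ha)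
  exact ⟨s1, t1 ++ t2, s3, by rw [hl, h1, h2]; simp⟩

/-- the substitution -/
def fs (x a : ℕ) (u v : List ℕ) (c : ℕ) : List ℕ :=
  if c = 0 then [x] else if c = 1 then [a] else if c = 2 then u else v

lemma fs0 (x a : ℕ) (u v : List ℕ) : fs x a u v 0 = [x] := rfl
lemma fs1 (x a : ℕ) (u v : List ℕ) : fs x a u v 1 = [a] := rfl
lemma fs2 (x a : ℕ) (u v : List ℕ) : fs x a u v 2 = u := rfl
lemma fs3 (x a : ℕ) (u v : List ℕ) : fs x a u v 3 = v := rfl

lemma fsX (x a : ℕ) (u v : List ℕ) (n : ℕ) :
    (X n).flatMap (fs x a u v) = List.replicate n x := by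
  induction n with
  | zero => rfl
  | succ n ih =>
    rw [X, List.replicate_succ, List.flatMap_cons, List.replicate_succ]
    rw [X] at ih
    rw [ih, fs0]
    rfl

lemma ina {H pre suf A D : List ℕ} {x a : ℕ} (haH : a ∉ H)
    (h : Ok1 H pre suf (A ++ x :: x :: a :: D)) : a ∈ suf :=
  (h.lt a (by simp) haH).2.2

theorem rel : RelStmt := by
  intro n η H pre suf x a haH
  refine ⟨?_, ?_, ?_⟩
  · intro hA A D hOk
    obtain ⟨s1, s2, hs⟩ := List.append_of_mem (ina haH hOk)
    have h := RR.sub (fs x a (D ++ s1) []) hA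
    simp only [List.flatMap_append, List.flatMap_cons, List.flatMap_nil, fsX, fs0, fs1, fs2,
      List.append_nil] at h
    have h2 := ((RR.refl (β := η) (pre ++ A)).append h).append (RR.refl (β := η) s2)
    subst hs
    simpa only [Wd, List.append_assoc, List.cons_append, List.nil_append] using h2
  · intro hA hsub A D hOk
    obtain ⟨s1, s2, s3, hs⟩ := sub2 hsub
    have h := RR.sub (fs x a (D ++ s1) s2) hA
    simp only [List.flatMap_append, List.flatMap_cons, List.flatMap_nil, fsX, fs0, fs1, fs2, fs3,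
      List.append_nil] at h
    have h2 := ((RR.refl (β := η) (pre ++ A)).append h).append (RR.refl (β := η) s3)
    subst hs
    simpa only [Wd, List.append_assoc, List.cons_append, List.nil_append] using h2
  · intro hA hsub A D hOk
    obtain ⟨s1, s2, s3, hs⟩ := sub2 hsub
    have h := RR.sub (fs x a (D ++ s1) s2) hA
    simp only [List.flatMap_append, List.flatMap_cons, List.flatMap_nil, fsX, fs0, fs1, fs2, fs3,
      List.append_nil] at h
    have h2 := ((RR.refl (β := η) (pre ++ A)).append h).append (RR.refl (β := η) s3)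
    subst hs
    simpa only [Wd, List.append_assoc, List.cons_append, List.nil_append] using h2

end Pool.Agent.MWGR.H53
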